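import Pool.Agent.TH152.AC.Dual

/-!
Weights of hyperplanes in `N`-subgeneral position: the combinatorial inequality.
-/

set_option autoImplicit false

open Pool.Agent.W602.Cov Module Pool.Agent.TH152.AC

namespace Pool.Agent.K3h50.MM

variable {n q : ℕ} {ℓ : Fin q → Form n}

/-- `N`-subgeneral position: any `N + 1` of the forms span -/
def SubGen (N : ℕ) (ℓ : Fin q → Form n) : Prop :=
  ∀ s : Finset (Fin q), N + 1 ≤ s.card → Submodule.span ℂ (ℓ '' (s : Set (Fin q))) = ⊤

theorem rk_le_card (ℓ : Fin q → Form n) (F : Finset (Fin q)) : rk ℓ F ≤ F.card := by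
  classical
  unfold rk
  have h1 := finrank_span_finset_le_card (R := ℂ) (F.image ℓ)
  rw [Finset.coe_image] at h1
  exact h1.trans Finset.card_image_le

theorem rk_union_le (ℓ : Fin q → Form n) (F E : Finset (Fin q)) :
    rk ℓ (F ∪ E) ≤ rk ℓ F + rk ℓ E := by
  unfold rk
  rw [Finset.coe_union, Set.image_union, Submodule.span_union]
  exact Submodule.finrank_add_le_finrank_add_finrank _ _

/-- the number of forms in a level set -/
theorem level_card {N : ℕ} (hnN : n ≤ N) (hpos : SubGen N ℓ) (hℓ : ∀ i, ℓ i ≠ 0) (v : Fin q → ℕ)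
    (hv : Submodule.span ℂ (ℓ '' {i | v i ≠ 0}) ≠ ⊤) (B : Bases ℓ)
    (hmax : ∀ B' : Bases ℓ, ∑ a, v (B'.1 a) ≤ ∑ a, v (B.1 a)) {t : ℕ} (ht : 1 ≤ t) :
    (Finset.univ.filter fun i => t ≤ v i).card ≤
      (N - n + 1) * (Finset.univ.filter fun a => t ≤ v (B.1 a)).card := by
  classical
  set F : Finset (Fin q) := Finset.univ.filter fun i => t ≤ v i with hF
  have hmem : ∀ i, i ∈ F ↔ t ≤ v i := by
    intro i
    rw [hF, Finset.mem_filter]
    simp
  have hcnt : cnt B.1 F = (Finset.univ.filter fun a => t ≤ v (B.1 a)).card := by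
    unfold cnt
    congr 1
    ext a
    simp only [Finset.mem_filter, Finset.mem_univ, true_and]
    exact hmem _
  rw [← hcnt]
  rcases F.eq_empty_or_nonempty with hFe | hFne
  · rw [hFe, Finset.card_empty]
    exact Nat.zero_le _
  have h1 : rk ℓ F ≤ cnt B.1 F := fill v B hmax t
  have hFsp : Submodule.span ℂ (ℓ '' (F : Set (Fin q))) ≠ ⊤ := by
    intro h
    apply hv
    rw [eq_top_iff, ← h]
    apply Submodule.span_mono
    apply Set.image_mono
    intro i hi
    have := (hmem i).1 hi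
    change v i ≠ 0
    omega
  have hrk1 : 1 ≤ rk ℓ F := by
    obtain ⟨i, hi⟩ := hFne
    have h2 : Submodule.span ℂ {ℓ i} ≤ Submodule.span ℂ (ℓ '' (F : Set (Fin q))) :=
      Submodule.span_mono (Set.singleton_subset_iff.2 ⟨i, hi, rfl⟩)
    have h3 := Submodule.finrank_mono h2
    rw [finrank_span_singleton (hℓ i)] at h3
    exact h3
  have hlt : cnt B.1 F ≤ n := by
    by_contra hcon
    push Not at hcon
    apply hFsp
    have h2 : (Finset.univ.filter fun a => B.1 a ∈ F) = Finset.univ := by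
      apply Finset.eq_univ_of_card
      rw [Fintype.card_fin]
      apply le_antisymm
      · have := Finset.card_filter_le (Finset.univ : Finset (Fin (n + 1))) (fun a => B.1 a ∈ F)
        simpa using this
      · unfold cnt at hcon
        exact hcon
    have h3 : ∀ a, B.1 a ∈ F := by
      intro a
      have := Finset.mem_univ a
      rw [← h2, Finset.mem_filter] at this
      exact this.2
    rw [eq_top_iff, ← (bas B).span_eq]
    apply Submodule.span_mono
    rintro _ ⟨a, rfl⟩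
    rw [bas_apply]
    exact ⟨_, h3 a, rfl⟩
  -- the complement
  have hinj : Function.Injective B.1 := by
    intro a b hab
    have := B.2.injective
    apply this
    simp only [hab]
  obtain ⟨a0, ha0⟩ : ∃ a0, B.1 a0 ∉ F := by
    by_contra hcon
    push Not at hcon
    have : cnt B.1 F = n + 1 := by
      unfold cnt
      rw [Finset.filter_true_of_mem (fun a _ => hcon a), Finset.card_univ, Fintype.card_fin]
    omega
  set C : Finset (Fin (n + 1)) := (Finset.univ.filter fun a => ¬ B.1 a ∈ F).erase a0 with hC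
  have hCcard : C.card + cnt B.1 F = n := by
    have h2 := Finset.card_filter_add_card_filter_not (s := (Finset.univ : Finset (Fin (n + 1))))
      (fun a => B.1 a ∈ F)
    have h3 : C.card + 1 = (Finset.univ.filter fun a => ¬ B.1 a ∈ F).card := by
      rw [hC]
      exact Finset.card_erase_add_one (Finset.mem_filter.2 ⟨Finset.mem_univ _, ha0⟩)
    rw [Finset.card_univ, Fintype.card_fin] at h2
    unfold cnt
    omega
  set E : Finset (Fin q) := C.image B.1 with hE
  have hEcard : E.card = C.card := Finset.card_image_of_injective _ hinj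
  have hdisj : Disjoint F E := by
    rw [Finset.disjoint_left]
    intro i hi hiE
    rw [hE, Finset.mem_image] at hiE
    obtain ⟨a, ha, rfl⟩ := hiE
    rw [hC, Finset.mem_erase, Finset.mem_filter] at ha
    exact ha.2.2 hi
  have hunion : (F ∪ E).card ≤ N := by
    by_contra hcon
    push Not at hcon
    have h2 := hpos (F ∪ E) hcon
    -- the rank of the union
    have hfull : rk ℓ (F ∪ E) = n + 1 := by
      unfold rk
      rw [h2, finrank_top, finrank_form]
    have h3 := rk_union_le ℓ F E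
    have h4 := rk_le_card ℓ E
    -- use the basis: the rank of `F` is at most the number of its basis elements
    have h5 := cnt_le_rk B F
    omega
  rw [Finset.card_union_of_disjoint hdisj] at hunion
  have h6 : 1 ≤ cnt B.1 F := hrk1.trans h1
  have h7 : F.card + n ≤ N + cnt B.1 F := by omega
  obtain ⟨u, hu⟩ : ∃ u, N = n + u := ⟨N - n, by omega⟩
  subst hu
  rw [show n + u - n + 1 = u + 1 by omega]
  obtain ⟨c, hc⟩ : ∃ c, cnt B.1 F = c + 1 := ⟨cnt B.1 F - 1, by omega⟩
  rw [hc] at h7 ⊢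
  have : F.card ≤ u + c + 1 := by omega
  nlinarith [Nat.zero_le (u * c)]

/-- layers -/
theorem layer_sum {f : ℕ → ℝ} (h0 : f 0 = 0) (T m : ℕ) (hm : m ≤ T) :
    f m = ∑ t ∈ Finset.Icc 1 T, if t ≤ m then f t - f (t - 1) else 0 := by
  have key : ∀ m : ℕ, f m = ∑ t ∈ Finset.Icc 1 m, (f t - f (t - 1)) := by
    intro m
    induction m with
    | zero => simp [h0]
    | succ m ih =>
      rw [Finset.sum_Icc_succ_top (by omega), ← ih]
      simp
  rw [key m, ← Finset.sum_filter]
  congr 1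
  ext t
  simp only [Finset.mem_filter, Finset.mem_Icc]
  omega

/-- the sums over the forms and over the basis of maximal weight -/
theorem cake {N : ℕ} (hnN : n ≤ N) (hpos : SubGen N ℓ) (hℓ : ∀ i, ℓ i ≠ 0) (v : Fin q → ℕ)
    (hv : Submodule.span ℂ (ℓ '' {i | v i ≠ 0}) ≠ ⊤) (B : Bases ℓ)
    (hmax : ∀ B' : Bases ℓ, ∑ a, v (B'.1 a) ≤ ∑ a, v (B.1 a)) {f : ℕ → ℝ} (hf : Monotone f)
    (h0 : f 0 = 0) :
    ∑ i, f (v i) ≤ ((N - n + 1 : ℕ) : ℝ) * ∑ a, f (v (B.1 a)) := by
  classical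
  obtain ⟨T, hT⟩ : ∃ T : ℕ, ∀ i, v i ≤ T :=
    ⟨Finset.univ.sup v, fun i => Finset.le_sup (Finset.mem_univ i)⟩
  have h1 : ∑ i, f (v i) = ∑ t ∈ Finset.Icc 1 T, (f t - f (t - 1)) *
      (Finset.univ.filter fun i => t ≤ v i).card := by
    calc ∑ i, f (v i) = ∑ i, ∑ t ∈ Finset.Icc 1 T, (if t ≤ v i then f t - f (t - 1) else 0) :=
          Finset.sum_congr rfl fun i _ => layer_sum h0 T (v i) (hT i)
      _ = ∑ t ∈ Finset.Icc 1 T, ∑ i, (if t ≤ v i then f t - f (t - 1) else 0) := Finset.sum_comm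
      _ = _ := by
          refine Finset.sum_congr rfl fun t _ => ?_
          rw [← Finset.sum_filter, Finset.sum_const, nsmul_eq_mul, mul_comm]
  have h2 : ∑ a, f (v (B.1 a)) = ∑ t ∈ Finset.Icc 1 T, (f t - f (t - 1)) *
      (Finset.univ.filter fun a => t ≤ v (B.1 a)).card := by
    calc ∑ a, f (v (B.1 a)) = ∑ a, ∑ t ∈ Finset.Icc 1 T,
          (if t ≤ v (B.1 a) then f t - f (t - 1) else 0) :=
          Finset.sum_congr rfl fun i _ => layer_sum h0 T _ (hT _)
      _ = ∑ t ∈ Finset.Icc 1 T, ∑ a, (if t ≤ v (B.1 a) then f t - f (t - 1) else 0) :=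
          Finset.sum_comm
      _ = _ := by
          refine Finset.sum_congr rfl fun t _ => ?_
          rw [← Finset.sum_filter, Finset.sum_const, nsmul_eq_mul, mul_comm]
  rw [h1, h2, Finset.mul_sum]
  refine Finset.sum_le_sum fun t ht => ?_
  have ht1 := (Finset.mem_Icc.1 ht).1
  have h3 := level_card hnN hpos hℓ v hv B hmax ht1
  have h4 : ((Finset.univ.filter fun i => t ≤ v i).card : ℝ) ≤
      ((N - n + 1 : ℕ) : ℝ) * (Finset.univ.filter fun a => t ≤ v (B.1 a)).card := by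
    exact_mod_cast h3
  have h5 : 0 ≤ f t - f (t - 1) := sub_nonneg.2 (hf (Nat.sub_le t 1))
  calc (f t - f (t - 1)) * ((Finset.univ.filter fun i => t ≤ v i).card : ℝ)
      ≤ (f t - f (t - 1)) * (((N - n + 1 : ℕ) : ℝ) *
        (Finset.univ.filter fun a => t ≤ v (B.1 a)).card) := mul_le_mul_of_nonneg_left h4 h5
    _ = _ := by ring

/-- **The inequality for the weights.** -/
theorem weights_ineq {N : ℕ} (hnN : n ≤ N) (hpos : SubGen N ℓ) (hℓ : ∀ i, ℓ i ≠ 0)
    (v : Fin q → ℕ) (hv : Submodule.span ℂ (ℓ '' {i | v i ≠ 0}) ≠ ⊤) (B : Bases ℓ)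
    (hmax : ∀ B' : Bases ℓ, ∑ a, v (B'.1 a) ≤ ∑ a, v (B.1 a)) {β : Fin q → ℝ} (hβ : ∀ i, 0 ≤ β i)
    {κ c : ℝ} (hκ1 : κ ≤ 1) (hc : 0 ≤ c)
    (h : ∀ i, v i ≠ 0 → ((N - n + 1 : ℕ) : ℝ) * β i * v i + κ * v i + c ≤ v i) :
    ∑ i, β i * v i + κ * ∑ a, (v (B.1 a) : ℝ) +
      c * (Finset.univ.filter fun a => v (B.1 a) ≠ 0).card ≤ ∑ a, (v (B.1 a) : ℝ) := by
  classical
  obtain ⟨f, hf⟩ : ∃ f : ℕ → ℝ, ∀ t : ℕ, f t = max 0 ((1 - κ) * t - c) := ⟨_, fun _ => rfl⟩
  have hmono : Monotone f := by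
    intro a b hab
    rw [hf, hf]
    apply max_le_max le_rfl
    have : (a : ℝ) ≤ b := by exact_mod_cast hab
    have := mul_le_mul_of_nonneg_left this (sub_nonneg.2 hκ1)
    linarith
  have hf0 : f 0 = 0 := by
    rw [hf]
    simp [hc]
  have hk := cake hnN hpos hℓ v hv B hmax hmono hf0
  have hν : (0 : ℝ) < ((N - n + 1 : ℕ) : ℝ) := by positivity
  have h1 : ((N - n + 1 : ℕ) : ℝ) * ∑ i, β i * v i ≤ ∑ i, f (v i) := by
    rw [Finset.mul_sum]
    refine Finset.sum_le_sum fun i _ => ?_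
    by_cases hi : v i = 0
    · rw [hi, hf0]
      simp
    · have h2 := h i hi
      rw [hf]
      refine le_trans ?_ (le_max_right _ _)
      nlinarith
  have h2 : ∑ i, β i * v i ≤ ∑ a, f (v (B.1 a)) := by
    refine le_of_mul_le_mul_left (h1.trans hk) hν
  have h3 : ∑ a, f (v (B.1 a)) + κ * ∑ a, (v (B.1 a) : ℝ) +
      c * (Finset.univ.filter fun a => v (B.1 a) ≠ 0).card = ∑ a, (v (B.1 a) : ℝ) := by
    rw [Finset.card_filter]
    push_cast
    rw [Finset.mul_sum, Finset.mul_sum, ← Finset.sum_add_distrib, ← Finset.sum_add_distrib]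
    refine Finset.sum_congr rfl fun a _ => ?_
    by_cases ha : v (B.1 a) = 0
    · simp [ha, hf0]
    · have h4 := h _ ha
      rw [hf, max_eq_right, if_pos ha]
      · ring
      · have h5 : 0 ≤ ((N - n + 1 : ℕ) : ℝ) * β (B.1 a) * v (B.1 a) := by
          have := hβ (B.1 a)
          positivity
        linarith
  linarith

/-- the number of the forms which vanish -/
theorem support_card {N : ℕ} (hnN : n ≤ N) (hpos : SubGen N ℓ) (hℓ : ∀ i, ℓ i ≠ 0)
    (v : Fin q → ℕ) (hv : Submodule.span ℂ (ℓ '' {i | v i ≠ 0}) ≠ ⊤) (B : Bases ℓ)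
    (hmax : ∀ B' : Bases ℓ, ∑ a, v (B'.1 a) ≤ ∑ a, v (B.1 a)) :
    (Finset.univ.filter fun i => v i ≠ 0).card ≤
      (N - n + 1) * (Finset.univ.filter fun a => v (B.1 a) ≠ 0).card := by
  have h := level_card hnN hpos hℓ v hv B hmax (t := 1) le_rfl
  have e : ∀ m : ℕ, 1 ≤ m ↔ m ≠ 0 := fun m => Nat.one_le_iff_ne_zero
  simpa only [e] using h

end Pool.Agent.K3h50.MM
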