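import Pool.Agent.TH585.SV.Ord

/-!
The order of a generalised Wronskian at a place where the members in the words do not vanish.
-/

set_option autoImplicit false

open FF Pool.Agent.W603.LV Pool.Agent.W602.GT Pool.Agent.W602.Cov Pool.Agent.W602.Cov.G
open Pool.Agent.W168.CG.PGR Pool.Agent.TH152.AC Pool.Agent.TH152.HY Pool.Agent.TH585.SV

namespace Pool.Agent.K3h50.MM

variable {d k n q : ℕ} {K : Type} [Field K] [Algebra ℂ K]

/-- the derivative of an element of order at least `c` -/
theorem ge_der {P : Place ℂ K} {D : Derivation ℂ K K} (hD : DerReg P D) {c : ℤ} {f : K}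
    (hf : Ge P c f) : Ge P (c - 1) (D f) := by
  obtain ⟨π, hπ0, hπ⟩ := P.surj
  have hlam : π ^ c ≠ 0 := zpow_ne_zero _ hπ0
  have hord : P.ord (π ^ c) = c := by rw [P.ord_zpow, hπ, mul_one]
  obtain ⟨u, hu⟩ : ∃ u, u = f / π ^ c := ⟨_, rfl⟩
  have hf' : f = π ^ c * u := by
    rw [hu]
    field_simp
  have hu0 : Ge P 0 u := by
    rw [hu]
    have := ge_div hlam hf
    rw [hord] at this
    simpa using this
  have h1 : Ge P 0 (D u) := hD u hu0
  -- the logarithmic derivative of the power
  have h2 : Ge P (-1) (D (π ^ c) / π ^ c) := by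
    have h3 : D (π ^ c) / π ^ c = c * (D π / π) := by
      rw [Derivation.leibniz_zpow, zpow_sub_one₀ hπ0]
      simp only [zsmul_eq_mul, smul_eq_mul]
      field_simp
    rw [h3]
    have h4 : Ge P (-1) (D π / π) := by
      have := ge_div hπ0 (hD π (Or.inr (by omega)))
      rw [hπ] at this
      simpa using this
    simpa using (Ge.intCast (P := P) c).mul h4
  rw [hf', (D).leibniz, smul_eq_mul, smul_eq_mul]
  refine Ge.add ?_ ?_
  · have h5 := (Pool.Agent.W602.GT.ge_ord P (π ^ c)).mul h1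
    rw [hord, add_zero] at h5
    exact h5.mono (by omega)
  · have h6 : D (π ^ c) = π ^ c * (D (π ^ c) / π ^ c) := by field_simp
    rw [h6]
    have h7 := hu0.mul ((Pool.Agent.W602.GT.ge_ord P (π ^ c)).mul h2)
    rw [hord] at h7
    exact h7.mono (by omega)

/-- **Good places.** All members in the words have the same order `a`. -/
theorem ge_pw_good {P : Place ℂ K} {D : Fin d → Derivation ℂ K K} (hD : ∀ i, DerReg P (D i))
    {g : Fin q → K} (hg : ∀ i, g i ≠ 0) {a : ℤ} (ha : ∀ i, P.ord (g i) = a)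
    (e : Fin (d + 1) ⊕ Fin k ≃ Fin (n + 1)) {y : Fin (n + 1) → K} {v : Fin (n + 1) → ℕ}
    (hy : ∀ b, Ge P (a + v b) (y b)) (S : Fin k → List (Letter d q)) {m : ℕ} (hm1 : 1 ≤ m)
    (hm : ∀ a, (S a).length ≤ m) :
    Ge P ((n + 1) * a + (∑ b, (v b : ℤ)) - m * (Finset.univ.filter fun b => v b ≠ 0).card)
      (pw e D g y S) := by
  classical
  obtain ⟨π, hπ0, hπ⟩ := P.surj
  have hlam : π ^ (-a) ≠ 0 := zpow_ne_zero _ hπ0
  have hordlam : P.ord (π ^ (-a)) = -a := by rw [P.ord_zpow, hπ, mul_one]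
  have h3 : ∀ b, Ge P (v b) (π ^ (-a) * y b) := by
    intro b
    have := (Pool.Agent.W602.GT.ge_ord P (π ^ (-a))).mul (hy b)
    rw [hordlam] at this
    refine this.mono (by omega)
  obtain ⟨ls, hls⟩ : ∃ ls : Fin (n + 1) → ℤ, ∀ b, ls b = if v b ≠ 0 then (m : ℤ) else 0 :=
    ⟨_, fun _ => rfl⟩
  have h4 : Ge P ((∑ b, (v b : ℤ)) - m * (Finset.univ.filter fun b => v b ≠ 0).card)
      (pw e D (fun i => π ^ (-a) * g i) (fun b => π ^ (-a) * y b) S) := by
    have hsum : (∑ b, (v b : ℤ)) - m * (Finset.univ.filter fun b => v b ≠ 0).card =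
        ∑ b, ((v b : ℤ) - ls b) := by
      rw [Finset.sum_sub_distrib]
      congr 1
      rw [Finset.card_filter]
      push_cast
      rw [Finset.mul_sum]
      refine Finset.sum_congr rfl fun b _ => ?_
      rw [hls]
      split_ifs <;> simp
    rw [hsum]
    refine ge_det' P _ _ (fun _ b => (v (e b) : ℤ) - ls (e b)) (fun a' b => ?_) fun σ =>
      (Equiv.sum_comp e fun b => (v b : ℤ) - ls b).ge
    change Ge P _ (rl D (fun i => π ^ (-a) * g i) S a' (π ^ (-a) * y (e b)))
    obtain ⟨z, hz⟩ : ∃ z, z = π ^ (-a) * y (e b) := ⟨_, rfl⟩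
    have hz1 := h3 (e b)
    rw [← hz] at hz1 ⊢
    obtain ⟨w, hw⟩ : ∃ w, w = v (e b) := ⟨_, rfl⟩
    have hl := hls (e b)
    rw [← hw] at hz1 hl ⊢
    have hg' : ∀ i, π ^ (-a) * g i ≠ 0 := fun i => mul_ne_zero hlam (hg i)
    have hord' : ∀ i, P.ord (π ^ (-a) * g i) = 0 := fun i => by
      rw [P.ord_mul hlam (hg i), hordlam, ha]
      ring
    by_cases hw0 : w = 0
    · -- no zero
      subst hw0
      have hl0 : ls (e b) = 0 := by rw [hl]; simp
      rw [hl0]
      have hz0 : Ge P 0 z := by simpa using hz1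
      have goal : Ge P 0 (rl D (fun i => π ^ (-a) * g i) S a' z) := by
        rcases a' with i | a'
        · refine Fin.cases ?_ (fun l => ?_) i
          · exact hz0
          · exact hD l _ hz0
        · rw [rl_inr]
          exact ge_wd_unit hg' (a := 0) hord' (fun f hf => (bwb d K).2.1 P D f hD hf) (S a') hz0
      simpa using goal
    · have hlm : ls (e b) = m := by rw [hl, if_pos hw0]
      rw [hlm]
      have hm1' : (1 : ℤ) ≤ m := by exact_mod_cast hm1
      rcases a' with i | a'
      · refine Fin.cases ?_ (fun l => ?_) i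
        · exact hz1.mono (by linarith)
        · exact (ge_der (hD l) hz1).mono (by linarith)
      · rw [rl_inr]
        have h1 := ge_wd (P := P) (D := D) hg' (e := 1) (fun f hf => by
          exact_mod_cast (bwb d K).1 P D f hD hf) (S a') hz1
        refine h1.mono ?_
        have := hm a'
        push_cast
        have h2 : ((S a').length : ℤ) ≤ m := by exact_mod_cast this
        linarith
  rw [pw_scale e D g y S hlam] at h4
  have h5 := Ge.of_mul (pow_ne_zero _ hlam) h4
  rw [P.ord_pow, hordlam] at h5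
  refine h5.mono (le_of_eq ?_)
  push_cast
  ring

end Pool.Agent.K3h50.MM
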