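import Pool.Agent.TH585.SV.Blk

/-!
The lengths of the words of a minimal tuple are at most `k + 1`.
-/

set_option autoImplicit false

open FF Pool.Agent.W603.LV Pool.Agent.W602.GT Pool.Agent.W602.Cov Pool.Agent.W602.Cov.G
open Pool.Agent.TH152.AC Pool.Agent.TH152.HY Pool.Agent.TH585.SV

namespace Pool.Agent.K3h50.MM

variable {d k n q : ℕ} {K : Type} [Field K] [Algebra ℂ K]

theorem V_top (e : Fin (d + 1) ⊕ Fin k ≃ Fin (n + 1)) {D : Fin d → Derivation ℂ K K}
    (hconst : ∀ f : K, (∀ l, D l f = 0) → ∃ c : ℂ, f = algebraMap ℂ K c)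
    {g : Fin q → K} (hg : ∀ i, g i ≠ 0) {I0 : Fin (d + 1) → Fin q}
    (hI : bw D (fun j => g (I0 j)) ≠ 0) {x : Fin (n + 1) → K} (hli : LinearIndependent ℂ x)
    (hblk : LinearIndependent K (blk D x)) : V D g x (k + 2) = ⊤ := by
  classical
  have hcard : d + k = n := by
    have := Fintype.card_congr e
    simp only [Fintype.card_sum, Fintype.card_fin] at this
    omega
  obtain ⟨S1, hS1, hlen⟩ := greedy2 hconst hg hI hli hblk k hcard.le
  set U := Submodule.span K (Set.range (blk D x)) with hU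
  have hUV : U ≤ V D g x (k + 2) := by
    rw [hU, Submodule.span_le]
    rintro _ ⟨i, rfl⟩
    exact V_mono D g x (by omega) (blk_mem hg hI x i)
  have hrank : Module.finrank K ((Fin (n + 1) → K) ⧸ U) = k := by
    have h1 := Submodule.finrank_quotient_add_finrank U
    have h2 : Module.finrank K U = d + 1 := by
      rw [hU, finrank_span_eq_card hblk, Fintype.card_fin]
    rw [h2, Module.finrank_fin_fun] at h1
    omega
  have h3 : Submodule.span K (Set.range fun a => U.mkQ (wv D g x (S1 a))) = ⊤ := by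
    apply Submodule.eq_top_of_finrank_eq
    rw [finrank_span_eq_card hS1, Fintype.card_fin, hrank]
  have h4 : (V D g x (k + 2)).map U.mkQ = ⊤ := by
    rw [eq_top_iff, ← h3, Submodule.span_le]
    rintro _ ⟨a, rfl⟩
    refine ⟨wv D g x (S1 a), wv_mem D g x ?_, rfl⟩
    have := hlen a
    have := a.2
    omega
  have h5 := congrArg (Submodule.comap U.mkQ) h4
  rw [Submodule.comap_map_mkQ, Submodule.comap_top, sup_eq_right.2 hUV] at h5
  exact h5

/-- **The lengths.** -/
theorem length_le (e : Fin (d + 1) ⊕ Fin k ≃ Fin (n + 1)) {D : Fin d → Derivation ℂ K K}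
    (hconst : ∀ f : K, (∀ l, D l f = 0) → ∃ c : ℂ, f = algebraMap ℂ K c)
    {g : Fin q → K} (hg : ∀ i, g i ≠ 0) {I0 : Fin (d + 1) → Fin q}
    (hI : bw D (fun j => g (I0 j)) ≠ 0) {x : Fin (n + 1) → K} (hli : LinearIndependent ℂ x)
    (hblk : LinearIndependent K (blk D x)) {S : Fin k → List (Letter d q)}
    (hS : MinW e D g x S) (a : Fin k) : (S a).length ≤ k + 1 := by
  by_contra hcon
  push Not at hcon
  apply hS.ne
  refine phi_low hS _ a ?_ fun b _ => wv_mem D g x (Nat.lt_succ_self _)
  have h1 : V D g x (k + 2) ≤ V D g x (S a).length := V_mono D g x (by omega)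
  rw [V_top e hconst hg hI hli hblk] at h1
  exact h1 trivial

end Pool.Agent.K3h50.MM
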