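import Pool.Agent.K3h50.MM.Comb
import Pool.Agent.K3h50.MM.Len
import Pool.Agent.K3h50.MM.Good
import Pool.Agent.TH585.SV.Lin

/-!
Pluricanonical forms which are products of generalised Wronskians, each of which uses only the
members of one group in its words.
-/

set_option autoImplicit false

open FF Module Pool.Agent.W603.LV Pool.Agent.W602.GT Pool.Agent.W602.Cov Pool.Agent.W602.Cov.G
open Pool.Agent.W168.CG.PGR Pool.Agent.TH152.AC Pool.Agent.TH152.HY Pool.Agent.TH585.SV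
open Pool.Agent.TH766.MC

namespace Pool.Agent.K3h50.MM

variable {d k n q G N : ℕ} {K : Type} [Field K] [Algebra ℂ K]

/-- the members of a group of forms -/
noncomputable def gr (ℓ : Fin q → Form n) (x : Fin (n + 1) → K) (c : Fin (N + 1) → Fin q) :
    Fin (N + 1) → K := fun j => lf (ℓ (c j)) x

/-- the coordinates given by a basis -/
theorem pw_basis' {q' : ℕ} {ℓ : Fin q → Form n} (e : Fin (d + 1) ⊕ Fin k ≃ Fin (n + 1))
    (D : Fin d → Derivation ℂ K K) (g : Fin q' → K) (x : Fin (n + 1) → K)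
    (S : Fin k → List (Letter d q')) (B : Bases ℓ) :
    ∃ c : ℂ, c ≠ 0 ∧ pw e D g (fun b => lf (ℓ (B.1 b)) x) S = algebraMap ℂ K c * pw e D g x S := by
  obtain ⟨c, hc⟩ : ∃ c : Matrix (Fin (n + 1)) (Fin (n + 1)) ℂ,
    c = Matrix.of fun a j : Fin (n + 1) => ℓ (B.1 a) (Pi.single j 1) := ⟨_, rfl⟩
  refine ⟨c.det, ?_, ?_⟩
  · rw [hc]
    exact det_ne_zero (m := fun a => ℓ (B.1 a)) B.2
  · have h1 : (Matrix.of fun a b : Fin (d + 1) ⊕ Fin k => rl D g S a (lf (ℓ (B.1 (e b))) x)) =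
        (Matrix.of fun a b : Fin (d + 1) ⊕ Fin k => rl D g S a (x (e b))) *
          ((c.submatrix e e).map (algebraMap ℂ K)).transpose := by
      ext a b
      rw [Matrix.mul_apply, Matrix.of_apply, lf_eq_smul, map_sum]
      rw [← Equiv.sum_comp e]
      refine Finset.sum_congr rfl fun j _ => ?_
      rw [map_smul, Algebra.smul_def, mul_comm, hc]
      rfl
    unfold pw
    rw [h1, Matrix.det_mul, Matrix.det_transpose, mul_comm]
    congr 1
    rw [← Matrix.det_submatrix_equiv_self e c]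
    exact (RingHom.map_det (algebraMap ℂ K) (c.submatrix e e)).symm

/-- one Wronskian -/
theorem one_ord {ℓ : Fin q → Form n} {x : Fin (n + 1) → K} (hlx : ∀ i, lf (ℓ i) x ≠ 0)
    (c : Fin (N + 1) → Fin q) (e : Fin (d + 1) ⊕ Fin k ≃ Fin (n + 1))
    (S : Fin k → List (Letter d (N + 1))) {m : ℕ} (hm1 : 1 ≤ m) (hm : ∀ a, (S a).length ≤ m)
    {P : Place ℂ K} {D : Fin d → Derivation ℂ K K} (hD : ∀ i, DerReg P (D i)) {a : ℤ}
    {v : Fin q → ℕ} (hv : ∀ i, P.ord (lf (ℓ i) x) = a + v i) (B : Bases ℓ) :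
    ∃ L : ℕ, L ≤ 1 + ∑ a, (S a).length ∧
      ((∀ j, v (c j) = 0) → L ≤ m * (Finset.univ.filter fun b => v (B.1 b) ≠ 0).card) ∧
      Ge P ((n + 1) * a + (∑ b, (v (B.1 b) : ℤ)) - L) (pw e D (gr ℓ x c) x S) := by
  classical
  obtain ⟨c0, hc00, hc0⟩ := pw_basis' (ℓ := ℓ) e D (gr ℓ x c) x S B
  have hback : ∀ z : ℤ, Ge P z (pw e D (gr ℓ x c) (fun b => lf (ℓ (B.1 b)) x) S) →
      Ge P z (pw e D (gr ℓ x c) x S) := by
    intro z hz
    rw [hc0] at hz
    have h4 := (Ge.const (P := P) c0⁻¹).mul hz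
    rwa [← mul_assoc, ← map_mul, inv_mul_cancel₀ hc00, map_one, one_mul, zero_add] at h4
  have h1 : Ge P ((n + 1) * a + (∑ b, (v (B.1 b) : ℤ)) - ((1 + ∑ a, (S a).length : ℕ) : ℤ))
      (pw e D (gr ℓ x c) x S) := by
    apply hback
    refine (ge_pw_reg (P := P) hD (g := gr ℓ x c) (fun j => hlx _) e
      (fun b => lf (ℓ (B.1 b)) x) (fun b => hlx _) S).mono (le_of_eq ?_)
    simp only [hv, Finset.sum_add_distrib, Finset.sum_const, Finset.card_univ, Fintype.card_fin,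
      nsmul_eq_mul]
    push_cast
    ring
  by_cases hgood : ∀ j, v (c j) = 0
  · have h2 : Ge P ((n + 1) * a + (∑ b, (v (B.1 b) : ℤ)) -
        ((m * (Finset.univ.filter fun b => v (B.1 b) ≠ 0).card : ℕ) : ℤ))
        (pw e D (gr ℓ x c) x S) := by
      apply hback
      have h3 := ge_pw_good (P := P) hD (g := gr ℓ x c) (fun j => hlx _) (a := a) (fun j => by
        rw [gr, hv, hgood j]; simp) e (y := fun b => lf (ℓ (B.1 b)) x)
        (v := fun b => v (B.1 b)) (fun b => by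
          right
          rw [hv]) S hm1 hm
      refine h3.mono (le_of_eq ?_)
      push_cast
      ring
    refine ⟨min (1 + ∑ a, (S a).length) (m * (Finset.univ.filter fun b => v (B.1 b) ≠ 0).card),
      min_le_left _ _, fun _ => min_le_right _ _, ?_⟩
    rcases min_choice (1 + ∑ a, (S a).length)
      (m * (Finset.univ.filter fun b => v (B.1 b) ≠ 0).card) with h | h
    · rw [h]; exact h1
    · rw [h]; exact h2
  · exact ⟨_, le_rfl, fun h => absurd h hgood, h1⟩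

/-- the weight of one Wronskian -/
def wt (S : Fin k → List (Letter d (N + 1))) : ℕ := 1 + ∑ a, (S a).length

/-- all Wronskians: the sum of the losses -/
theorem all_ord {ℓ : Fin q → Form n} {x : Fin (n + 1) → K} (hlx : ∀ i, lf (ℓ i) x ≠ 0)
    (hnN : n ≤ N) (hpos : SubGen N ℓ) (hℓ : ∀ i, ℓ i ≠ 0)
    (γ : Fin G → Fin (N + 1) → Fin q) (hγ : ∀ s j s' j', γ s j = γ s' j' → s = s')
    (e : Fin (d + 1) ⊕ Fin k ≃ Fin (n + 1))
    (S : Fin G → Fin k → List (Letter d (N + 1))) (hm : ∀ s a, (S s a).length ≤ k + 1)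
    (hW : ∀ s, 2 * wt (S s) ≤ (k + 1) * (k + 2))
    {P : Place ℂ K} {D : Fin d → Derivation ℂ K K} (hD : ∀ i, DerReg P (D i)) {a : ℤ}
    {v : Fin q → ℕ} (hv : ∀ i, P.ord (lf (ℓ i) x) = a + v i)
    (hvs : Submodule.span ℂ (ℓ '' {i | v i ≠ 0}) ≠ ⊤) (B : Bases ℓ)
    (hmax : ∀ B' : Bases ℓ, ∑ a, v (B'.1 a) ≤ ∑ a, v (B.1 a)) :
    ∃ L : ℕ, L ≤ ∑ s, wt (S s) ∧
      2 * L ≤ (k + 1) * (Finset.univ.filter fun b => v (B.1 b) ≠ 0).card *
        (2 * G + (N - n + 1) * k) ∧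
      Ge P (G * ((n + 1) * a + (∑ b, (v (B.1 b) : ℤ))) - L)
        (∏ s, pw e D (gr ℓ x (γ s)) x (S s)) := by
  classical
  choose L hL1 hL2 hL3 using fun s => one_ord hlx (γ s) e (S s) (Nat.succ_pos k) (hm s) hD hv B
  refine ⟨∑ s, L s, Finset.sum_le_sum fun s _ => hL1 s, ?_, ?_⟩
  · obtain ⟨κ', hκ'⟩ : ∃ κ', κ' = (Finset.univ.filter fun b => v (B.1 b) ≠ 0).card := ⟨_, rfl⟩
    rw [← hκ'] at hL2 ⊢
    set Bad : Finset (Fin G) := Finset.univ.filter fun s => ∃ j, v (γ s j) ≠ 0 with hBad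
    have hbadcard : Bad.card ≤ (N - n + 1) * κ' := by
      have h1 := support_card hnN hpos hℓ v hvs B hmax
      rw [← hκ'] at h1
      refine le_trans ?_ h1
      have hch : ∀ s ∈ Bad, ∃ j, v (γ s j) ≠ 0 := fun s hs => (Finset.mem_filter.1 hs).2
      choose! f hf using hch
      refine Finset.card_le_card_of_injOn (fun s => γ s (f s)) (fun s hs => ?_) ?_
      · rw [Finset.mem_coe, Finset.mem_filter]
        exact ⟨Finset.mem_univ _, hf s hs⟩
      · intro s _ s' _ h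
        exact hγ _ _ _ _ h
    have hκpos : Bad.Nonempty → 1 ≤ κ' := by
      intro hne
      by_contra hcon
      have h0 : κ' = 0 := by omega
      rw [h0, mul_zero] at hbadcard
      have := Finset.card_pos.2 hne
      omega
    have h2 : ∀ s, 2 * L s ≤ 2 * ((k + 1) * κ') + (if s ∈ Bad then (k + 1) * k else 0) := by
      intro s
      by_cases hs : s ∈ Bad
      · rw [if_pos hs]
        have h3 := hκpos ⟨s, hs⟩
        have h4 : 2 * L s ≤ (k + 1) * (k + 2) := (Nat.mul_le_mul_left 2 (hL1 s)).trans (hW s)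
        obtain ⟨u, hu⟩ : ∃ u, κ' = u + 1 := ⟨κ' - 1, by omega⟩
        rw [hu]
        nlinarith [Nat.zero_le ((k + 1) * u)]
      · rw [if_neg hs, add_zero]
        have h3 : ∀ j, v (γ s j) = 0 := by
          intro j
          by_contra h
          exact hs (Finset.mem_filter.2 ⟨Finset.mem_univ _, j, h⟩)
        exact Nat.mul_le_mul_left 2 (hL2 s h3)
    calc 2 * ∑ s, L s = ∑ s, 2 * L s := Finset.mul_sum _ _ _
      _ ≤ ∑ s, (2 * ((k + 1) * κ') + (if s ∈ Bad then (k + 1) * k else 0)) :=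
          Finset.sum_le_sum fun s _ => h2 s
      _ = G * (2 * ((k + 1) * κ')) + Bad.card * ((k + 1) * k) := by
          rw [Finset.sum_add_distrib, Finset.sum_const, Finset.card_univ, Fintype.card_fin,
            smul_eq_mul, ← Finset.sum_filter, Finset.sum_const, smul_eq_mul]
          congr 2
          congr 1
          ext s
          simp
      _ ≤ G * (2 * ((k + 1) * κ')) + ((N - n + 1) * κ') * ((k + 1) * k) := by
          gcongr
      _ = _ := by ring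
  · have h1 := Ge.prod (P := P) Finset.univ (fun s => pw e D (gr ℓ x (γ s)) x (S s)) _
      fun s _ => hL3 s
    refine h1.mono (le_of_eq ?_)
    rw [Finset.sum_sub_distrib, Finset.sum_const, Finset.card_univ, Fintype.card_fin,
      nsmul_eq_mul]
    push_cast
    ring

/-- the pluricanonical form -/
noncomputable def fm (ℓ : Fin q → Form n) (x : Fin (n + 1) → K) (γ : Fin G → Fin (N + 1) → Fin q)
    (e : Fin (d + 1) ⊕ Fin k ≃ Fin (n + 1)) (S : Fin G → Fin k → List (Letter d (N + 1)))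
    (b : Fin q → ℕ) (M t : ℕ) (D : Fin d → Derivation ℂ K K) : K :=
  (∏ s, pw e D (gr ℓ x (γ s)) x (S s)) ^ (M * t) / ∏ i, lf (ℓ i) x ^ (b i * (G * t))

/-- **The order of the form.** -/
theorem fm_ord {ℓ : Fin q → Form n} {x : Fin (n + 1) → K} (hlx : ∀ i, lf (ℓ i) x ≠ 0)
    (hnN : n ≤ N) (hpos : SubGen N ℓ) (hspan : Submodule.span ℂ (Set.range ℓ) = ⊤)
    (hℓ : ∀ i, ℓ i ≠ 0) (hG : 1 ≤ G)
    (γ : Fin G → Fin (N + 1) → Fin q) (hγ : ∀ s j s' j', γ s j = γ s' j' → s = s')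
    (e : Fin (d + 1) ⊕ Fin k ≃ Fin (n + 1))
    (S : Fin G → Fin k → List (Letter d (N + 1))) (hm : ∀ s a, (S s a).length ≤ k + 1)
    (hW : ∀ s, 2 * wt (S s) ≤ (k + 1) * (k + 2)) {b : Fin q → ℕ} {M : ℕ} (hM : 1 ≤ M)
    (hb : ∑ i, b i = (n + 1) * M) (t : ℕ)
    {P : Place ℂ K} {D : Fin d → Derivation ℂ K K} (hD : ∀ i, DerReg P (D i)) {a : ℤ}
    {v : Fin q → ℕ} (hv : ∀ i, P.ord (lf (ℓ i) x) = a + v i)
    (hvs : Submodule.span ℂ (ℓ '' {i | v i ≠ 0}) ≠ ⊤) {s δ κ : ℝ} (hδ : 0 ≤ δ) (hκ0 : 0 ≤ κ)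
    (hκ1 : κ ≤ 1)
    (hs : (k + 1) * (2 * G + ((N - n + 1 : ℕ) : ℝ) * k) ≤ 2 * G * s)
    (h : ∀ i, v i ≠ 0 → ((N - n + 1 : ℕ) : ℝ) * (b i / M) * v i + κ * v i +
      max 0 (s * (1 - δ)) ≤ v i) :
    ∃ c : ℤ, Ge P c (fm ℓ x γ e S b M t D) ∧ ∀ i,
      (G * M * t : ℝ) * (κ * v i) - ((∑ s, wt (S s) : ℕ) : ℝ) * (M * t) * δ ≤ c := by
  classical
  obtain ⟨B, -, hB⟩ := Finset.exists_max_image (Finset.univ : Finset (Bases ℓ))
    (fun B => ∑ a, v (B.1 a)) (by
      obtain ⟨B0⟩ := exists_bases hspan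
      exact ⟨B0, Finset.mem_univ _⟩)
  have hmax : ∀ B' : Bases ℓ, ∑ a, v (B'.1 a) ≤ ∑ a, v (B.1 a) := fun B' =>
    hB B' (Finset.mem_univ _)
  obtain ⟨L, hL1, hL2, hL3⟩ := all_ord hlx hnN hpos hℓ γ hγ e S hm hW hD hv hvs B hmax
  have hden0 : ∏ i, lf (ℓ i) x ^ (b i * (G * t)) ≠ 0 :=
    Finset.prod_ne_zero_iff.2 fun i _ => pow_ne_zero _ (hlx i)
  have hden : P.ord (∏ i, lf (ℓ i) x ^ (b i * (G * t))) =
      (G * t : ℤ) * ((n + 1) * M * a + ∑ i, (b i : ℤ) * v i) := by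
    rw [ord_prod' P _ _ fun i _ => pow_ne_zero _ (hlx i)]
    have e1 : ∀ i, P.ord (lf (ℓ i) x ^ (b i * (G * t))) =
        (G * t : ℤ) * ((b i : ℤ) * a + (b i : ℤ) * v i) := by
      intro i
      rw [P.ord_pow, hv]
      push_cast
      ring
    rw [Finset.sum_congr rfl fun i _ => e1 i, ← Finset.mul_sum, Finset.sum_add_distrib,
      ← Finset.sum_mul]
    have e2 : (∑ i, (b i : ℤ)) = (n + 1) * M := by exact_mod_cast hb
    rw [e2]
  have h5 := ge_div hden0 (hL3.pow (M * t))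
  rw [hden] at h5
  refine ⟨_, h5, fun i => ?_⟩
  -- the inequality
  have hν : (0 : ℝ) ≤ ((N - n + 1 : ℕ) : ℝ) := by positivity
  have hM' : (0 : ℝ) < M := by exact_mod_cast hM
  have hG' : (0 : ℝ) < G := by exact_mod_cast hG
  have hc0 : 0 ≤ max 0 (s * (1 - δ)) := le_max_left _ _
  have key := weights_ineq hnN hpos hℓ v hvs B hmax (β := fun i => (b i : ℝ) / M)
    (fun i => by positivity) hκ1 hc0 h
  obtain ⟨k', hk'⟩ : ∃ k', k' = (Finset.univ.filter fun a => v (B.1 a) ≠ 0).card := ⟨_, rfl⟩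
  rw [← hk'] at key hL2
  obtain ⟨sv, hsv⟩ : ∃ sv : ℝ, sv = ∑ a, (v (B.1 a) : ℝ) := ⟨_, rfl⟩
  obtain ⟨W, hWd⟩ : ∃ W : ℕ, W = ∑ s, wt (S s) := ⟨_, rfl⟩
  rw [← hWd] at hL1 ⊢
  have hbv : ∑ i, (b i : ℝ) / M * v i = (∑ i, (b i : ℝ) * v i) / M := by
    rw [Finset.sum_div]
    refine Finset.sum_congr rfl fun i _ => ?_
    ring
  rw [hbv, ← hsv] at key
  obtain ⟨Z, hZ⟩ : ∃ Z : ℝ, Z = ∑ i, (b i : ℝ) * v i := ⟨_, rfl⟩
  rw [← hZ] at key
  have key2 : Z + M * (κ * sv) + M * (max 0 (s * (1 - δ)) * k') ≤ M * sv := by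
    have h1 := mul_le_mul_of_nonneg_left key hM'.le
    have h2 : (M : ℝ) * (Z / M + κ * sv + max 0 (s * (1 - δ)) * k') =
      Z + M * (κ * sv) + M * (max 0 (s * (1 - δ)) * k') := by
      field_simp
    linarith
  -- the maximum of `v`
  have hvi : (v i : ℝ) ≤ sv := by
    rw [hsv]
    by_cases h0 : v i = 0
    · rw [h0]
      simp only [Nat.cast_zero]
      positivity
    · have h1 := level_card hnN hpos hℓ v hvs B hmax (t := v i) (by omega)
      have h2 : 0 < (Finset.univ.filter fun j => v i ≤ v j).card :=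
        Finset.card_pos.2 ⟨i, Finset.mem_filter.2 ⟨Finset.mem_univ _, le_rfl⟩⟩
      have h3 : 0 < (Finset.univ.filter fun a => v i ≤ v (B.1 a)).card := by
        by_contra hcon
        have h4 : (Finset.univ.filter fun a => v i ≤ v (B.1 a)).card = 0 := by omega
        rw [h4, mul_zero] at h1
        omega
      obtain ⟨a', ha'⟩ := Finset.card_pos.1 h3
      have h4 := (Finset.mem_filter.1 ha').2
      have h5 : (v (B.1 a') : ℝ) ≤ ∑ a, (v (B.1 a) : ℝ) :=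
        Finset.single_le_sum (f := fun a => (v (B.1 a) : ℝ)) (fun a _ => by positivity)
          (Finset.mem_univ a')
      have h6 : (v i : ℝ) ≤ v (B.1 a') := by exact_mod_cast h4
      linarith
  -- the losses
  have hL1' : (L : ℝ) ≤ W := by exact_mod_cast hL1
  have hL2' : 2 * (L : ℝ) ≤ (k + 1) * k' * (2 * G + ((N - n + 1 : ℕ) : ℝ) * k) := by
    exact_mod_cast hL2
  have hk0 : (0 : ℝ) ≤ k' := by positivity
  have hL0 : (0 : ℝ) ≤ L := by positivity
  have hL3' : (L : ℝ) ≤ G * s * k' := by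
    have h1 := mul_le_mul_of_nonneg_right hs hk0
    nlinarith
  have hloss : (1 - δ) * L ≤ G * (max 0 (s * (1 - δ)) * k') := by
    by_cases h1 : 0 ≤ 1 - δ
    · have h2 : (1 - δ) * L ≤ (1 - δ) * (G * s * k') := mul_le_mul_of_nonneg_left hL3' h1
      have h3 : s * (1 - δ) * k' ≤ max 0 (s * (1 - δ)) * k' :=
        mul_le_mul_of_nonneg_right (le_max_right _ _) hk0
      have h4 : G * (s * (1 - δ) * k') ≤ G * (max 0 (s * (1 - δ)) * k') :=
        mul_le_mul_of_nonneg_left h3 hG'.le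
      linarith
    · push Not at h1
      have h2 : (1 - δ) * L ≤ 0 := mul_nonpos_of_nonpos_of_nonneg h1.le hL0
      have h3 : 0 ≤ G * (max 0 (s * (1 - δ)) * k') := by positivity
      linarith
  have hWδ : (L : ℝ) * δ ≤ W * δ := mul_le_mul_of_nonneg_right hL1' hδ
  have hMt : (0 : ℝ) ≤ M * t := by positivity
  have ht : (0 : ℝ) ≤ t := by positivity
  -- summing up
  have hc1 : ((( (M * t : ℕ) : ℤ) * (G * ((n + 1) * a + (∑ b, (v (B.1 b) : ℤ))) - L) -
      (G * t : ℤ) * ((n + 1) * M * a + ∑ i, (b i : ℤ) * v i) : ℤ) : ℝ) =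
      t * (G * (M * sv - Z) - M * L) := by
    rw [hsv, hZ]
    push_cast
    ring
  rw [hc1]
  have h6 : (G : ℝ) * (M * (κ * sv) + M * (max 0 (s * (1 - δ)) * k')) ≤ G * (M * sv - Z) :=
    mul_le_mul_of_nonneg_left (by linarith) hG'.le
  have h7 : (G : ℝ) * (M * (κ * v i)) ≤ G * (M * (κ * sv)) := by gcongr
  have h8 : (M : ℝ) * ((1 - δ) * L) ≤ M * (G * (max 0 (s * (1 - δ)) * k')) :=
    mul_le_mul_of_nonneg_left hloss hM'.le
  have h9 : (M : ℝ) * (L * δ) ≤ M * (W * δ) := mul_le_mul_of_nonneg_left hWδ hM'.le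
  have h10 : (G : ℝ) * (M * (κ * v i)) - W * M * δ ≤ G * (M * sv - Z) - M * L := by nlinarith
  calc (G * M * t : ℝ) * (κ * v i) - (W : ℝ) * (M * t) * δ
      = t * (G * (M * (κ * v i)) - W * M * δ) := by ring
    _ ≤ t * (G * (M * sv - Z) - M * L) := mul_le_mul_of_nonneg_left h10 ht

end Pool.Agent.K3h50.MM
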